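import Pool.Agent.R974.SP.Base

set_option autoImplicit false

noncomputable section

namespace R974.SP

open MeasureTheory Filter Topology R59.SP
open scoped SchwartzMap FourierTransform ENNReal ComplexConjugate ComplexOrder ContDiff

lemma fourierInv_apply (k : 𝓢(ℝ, ℂ)) (x : ℝ) : (𝓕⁻ k) x = (𝓕 k) (-x) := by
  rw [SchwartzMap.fourierInv_coe, SchwartzMap.fourier_coe, Real.fourierInv_eq_fourier_neg]

lemma fourier_fourier (G : 𝓢(ℝ, ℂ)) (ξ : ℝ) : 𝓕 (𝓕 G) ξ = G (-ξ) := by
  have := fourierInv_apply (𝓕 G) (-ξ)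
  rw [neg_neg] at this
  rw [← this, FourierTransform.fourierInv_fourier_eq]

lemma fourier_formula (F : 𝓢(ℝ, ℂ)) (x : ℝ) :
    𝓕 F x = ∫ ξ : ℝ, Complex.exp (((2 * Real.pi * (ξ * x) : ℝ) : ℂ) * Complex.I) * F (-ξ) := by
  have h := inv_formula (𝓕 F) x
  rw [h]
  refine integral_congr_ae (Eventually.of_forall fun ξ => ?_)
  simp only
  rw [fourier_fourier]

/-- scaling -/
lemma scale (ε : ℝ) (hε : 0 < ε) (h : 𝓢(ℝ, ℂ)) (hh : BL 1 h) :
    ∃ Ψ : 𝓢(ℝ, ℂ), (∀ x, Ψ x = h (ε * x)) ∧ BL ε Ψ := by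
  let g : ℝ ≃L[ℝ] ℝ := (LinearEquiv.smulOfNeZero ℝ ℝ ε hε.ne').toContinuousLinearEquiv
  have hg : ∀ x, g x = ε * x := fun x => by
    simp [g]
  refine ⟨SchwartzMap.compCLMOfContinuousLinearEquiv ℂ g h, fun x => ?_, fun ξ hξ => ?_⟩
  · rw [SchwartzMap.compCLMOfContinuousLinearEquiv_apply]
    simp [hg]
  · rw [SchwartzMap.fourier_coe, Real.fourier_real_eq_integral_exp_smul]
    have h1 : ∀ v : ℝ, Complex.exp (↑(-2 * Real.pi * v * ξ) * Complex.I) •
        (SchwartzMap.compCLMOfContinuousLinearEquiv ℂ g h) v =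
        (fun y : ℝ => Complex.exp (↑(-2 * Real.pi * y * (ξ / ε)) * Complex.I) • h y) (ε * v) := by
      intro v
      rw [SchwartzMap.compCLMOfContinuousLinearEquiv_apply]
      simp only [Function.comp, hg]
      congr 4
      field_simp
    rw [integral_congr_ae (Eventually.of_forall h1), Measure.integral_comp_mul_left
      (fun y : ℝ => Complex.exp (↑(-2 * Real.pi * y * (ξ / ε)) * Complex.I) • h y) ε]
    rw [← Real.fourier_real_eq_integral_exp_smul, ← SchwartzMap.fourier_coe, hh, smul_zero]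
    rw [abs_div, abs_of_pos hε, lt_div_iff₀ hε]
    linarith

/-- the bump -/
def bmp : ContDiffBump (0 : ℝ) := ⟨1 / 4, 1 / 2, by norm_num, by norm_num⟩

lemma bmp_supp : HasCompactSupport (fun x : ℝ => ((bmp x : ℝ) : ℂ)) := by
  have := bmp.hasCompactSupport
  exact this.comp_left (g := fun r : ℝ => (r : ℂ)) (by simp)

lemma bmp_smooth : ContDiff ℝ ∞ (fun x : ℝ => ((bmp x : ℝ) : ℂ)) :=
  Complex.ofRealCLM.contDiff.comp bmp.contDiff

def Bf : 𝓢(ℝ, ℂ) := bmp_supp.toSchwartzMap bmp_smooth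

lemma Bf_apply (x : ℝ) : Bf x = ((bmp x : ℝ) : ℂ) := rfl

lemma bmp_even (x : ℝ) : bmp (-x) = bmp x := by
  have := bmp.sub x
  simpa using this

lemma bmp_zero (x : ℝ) (hx : 1 / 2 ≤ |x|) : bmp x = 0 := by
  apply bmp.zero_of_le_dist
  simpa [bmp] using hx

lemma bmp_pos (x : ℝ) (hx : |x| < 1 / 2) : 0 < bmp x := by
  apply bmp.pos_of_mem_ball
  simpa [bmp, Metric.mem_ball] using hx

/-- the cosine transform -/
def phi (x : ℝ) : ℝ := ∫ ξ : ℝ, bmp ξ * Real.cos (2 * Real.pi * (ξ * x))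

lemma int_bmp_mul (f : ℝ → ℝ) (hf : Continuous f) : Integrable (fun ξ => bmp ξ * f ξ) := by
  have hc : Continuous (fun ξ => bmp ξ * f ξ) := bmp.continuous.mul hf
  refine hc.integrable_of_hasCompactSupport ?_
  exact bmp.hasCompactSupport.mul_right

lemma int_bmp : Integrable (fun ξ => bmp ξ) := by
  simpa using int_bmp_mul (fun _ => 1) continuous_const

lemma phi_eq (x : ℝ) : 𝓕 Bf x = ((phi x : ℝ) : ℂ) := by
  rw [fourier_formula, phi, ← integral_complex_ofReal]
  have hi : Integrable (fun ξ : ℝ => bmp ξ * Real.sin (2 * Real.pi * (ξ * x))) :=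
    int_bmp_mul _ (by fun_prop)
  have hi2 : Integrable (fun ξ : ℝ => bmp ξ * Real.cos (2 * Real.pi * (ξ * x))) :=
    int_bmp_mul _ (by fun_prop)
  have hodd : ∫ ξ : ℝ, bmp ξ * Real.sin (2 * Real.pi * (ξ * x)) = 0 := by
    have h1 := integral_neg_eq_self (fun ξ : ℝ => bmp ξ * Real.sin (2 * Real.pi * (ξ * x))) volume
    have h2 : ∫ ξ : ℝ, bmp (-ξ) * Real.sin (2 * Real.pi * (-ξ * x)) =
        -∫ ξ : ℝ, bmp ξ * Real.sin (2 * Real.pi * (ξ * x)) := by
      rw [← integral_neg]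
      refine integral_congr_ae (Eventually.of_forall fun ξ => ?_)
      simp only
      rw [bmp_even, show 2 * Real.pi * (-ξ * x) = -(2 * Real.pi * (ξ * x)) by ring, Real.sin_neg]
      ring
    linarith
  have e : ∀ ξ : ℝ, Complex.exp (((2 * Real.pi * (ξ * x) : ℝ) : ℂ) * Complex.I) * Bf (-ξ) =
      ((bmp ξ * Real.cos (2 * Real.pi * (ξ * x)) : ℝ) : ℂ) +
        ((bmp ξ * Real.sin (2 * Real.pi * (ξ * x)) : ℝ) : ℂ) * Complex.I := by
    intro ξ
    rw [Bf_apply, bmp_even, Complex.exp_mul_I]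
    push_cast
    ring
  simp_rw [e]
  rw [integral_add hi2.ofReal (hi.ofReal.mul_const _), integral_mul_const]
  rw [integral_complex_ofReal (f := fun ξ : ℝ => bmp ξ * Real.sin (2 * Real.pi * (ξ * x))), hodd]
  simp

lemma phi_zero : phi 0 = ∫ ξ : ℝ, bmp ξ := by simp [phi]

lemma phi_zero_pos : 0 < phi 0 := by
  rw [phi_zero]
  refine bmp.continuous.integral_pos_of_hasCompactSupport_nonneg_nonzero bmp.hasCompactSupport
    (fun _ => bmp.nonneg) (x := 0) (bmp_pos 0 (by norm_num)).ne'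

lemma phi_cont : Continuous phi := by
  have h : Continuous (fun x => (𝓕 Bf x).re) := Complex.continuous_re.comp (𝓕 Bf).continuous
  refine h.congr fun x => ?_
  rw [phi_eq, Complex.ofReal_re]

lemma phi_tends : Tendsto phi (cocompact ℝ) (𝓝 0) := by
  have h := (𝓕 Bf).tendsto_cocompact
  have h2 := (Complex.continuous_re.tendsto 0).comp h
  rw [Complex.zero_re] at h2
  refine h2.congr fun x => ?_
  simp only [Function.comp]
  rw [phi_eq, Complex.ofReal_re]

lemma phi_sub (x : ℝ) : phi 0 - phi x = ∫ ξ : ℝ, bmp ξ * (1 - Real.cos (2 * Real.pi * (ξ * x))) := by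
  have h1 : Integrable (fun ξ : ℝ => bmp ξ) := int_bmp
  have h2 : Integrable (fun ξ : ℝ => bmp ξ * Real.cos (2 * Real.pi * (ξ * x))) :=
    int_bmp_mul _ (by fun_prop)
  rw [phi_zero, phi, ← integral_sub h1 h2]
  refine integral_congr_ae (Eventually.of_forall fun ξ => ?_)
  simp only
  ring

lemma phi_add (x : ℝ) : phi 0 + phi x = ∫ ξ : ℝ, bmp ξ * (1 + Real.cos (2 * Real.pi * (ξ * x))) := by
  have h1 : Integrable (fun ξ : ℝ => bmp ξ) := int_bmp
  have h2 : Integrable (fun ξ : ℝ => bmp ξ * Real.cos (2 * Real.pi * (ξ * x))) :=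
    int_bmp_mul _ (by fun_prop)
  rw [phi_zero, phi, ← integral_add h1 h2]
  refine integral_congr_ae (Eventually.of_forall fun ξ => ?_)
  simp only
  ring

lemma phi_sub_nonneg (x : ℝ) : 0 ≤ phi 0 - phi x := by
  rw [phi_sub]
  refine integral_nonneg fun ξ => mul_nonneg bmp.nonneg ?_
  linarith [Real.cos_le_one (2 * Real.pi * (ξ * x))]

lemma phi_add_pos (x : ℝ) : 0 < phi 0 + phi x := by
  rw [phi_add]
  refine Continuous.integral_pos_of_hasCompactSupport_nonneg_nonzero (x := 0) ?_ ?_ ?_ ?_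
  · exact bmp.continuous.mul (by fun_prop)
  · exact bmp.hasCompactSupport.mul_right
  · intro ξ
    refine mul_nonneg bmp.nonneg ?_
    linarith [Real.neg_one_le_cos (2 * Real.pi * (ξ * x))]
  · simp only [zero_mul, mul_zero, Real.cos_zero]
    have := bmp_pos 0 (by norm_num)
    positivity

lemma phi_sub_pos (x : ℝ) (hx : x ≠ 0) : 0 < phi 0 - phi x := by
  rw [phi_sub]
  have hx' : 0 < |x| := abs_pos.mpr hx
  set t : ℝ := min (1 / 4) (1 / (4 * |x|)) with ht
  have ht0 : 0 < t := lt_min (by norm_num) (by positivity)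
  have ht1 : t ≤ 1 / 4 := min_le_left _ _
  have ht2 : t * |x| ≤ 1 / 4 := by
    have : t ≤ 1 / (4 * |x|) := min_le_right _ _
    calc t * |x| ≤ 1 / (4 * |x|) * |x| := by gcongr
      _ = 1 / 4 := by field_simp
  refine Continuous.integral_pos_of_hasCompactSupport_nonneg_nonzero (x := t) ?_ ?_ ?_ ?_
  · exact bmp.continuous.mul (by fun_prop)
  · exact bmp.hasCompactSupport.mul_right
  · intro ξ
    refine mul_nonneg bmp.nonneg ?_
    linarith [Real.cos_le_one (2 * Real.pi * (ξ * x))]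
  · refine mul_ne_zero (bmp_pos t (by rw [abs_of_pos ht0]; linarith)).ne' ?_
    have h1 : Real.cos (2 * Real.pi * (t * x)) = Real.cos (2 * Real.pi * (t * |x|)) := by
      rw [← Real.cos_abs, abs_mul, abs_mul, abs_mul, abs_of_pos Real.pi_pos, abs_two,
        abs_of_pos ht0]
    rw [h1]
    have h2 : Real.cos (2 * Real.pi * (t * |x|)) < Real.cos 0 := by
      refine Real.cos_lt_cos_of_nonneg_of_le_pi le_rfl ?_ ?_
      · have := Real.pi_pos
        nlinarith
      · have := Real.pi_pos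
        positivity
    rw [Real.cos_zero] at h2
    linarith

lemma phi_lip (x : ℝ) : phi 0 - phi x ≤ Real.pi * |x| * phi 0 := by
  rw [phi_sub, phi_zero, ← integral_const_mul]
  refine integral_mono (int_bmp_mul _ (by fun_prop)) (int_bmp.const_mul _) fun ξ => ?_
  simp only
  by_cases h : |ξ| < 1 / 2
  · have hb := bmp.nonneg (x := ξ)
    rw [mul_comm (Real.pi * |x|)]
    refine mul_le_mul_of_nonneg_left ?_ hb
    have h1 : 1 - Real.cos (2 * Real.pi * (ξ * x)) ≤ |2 * Real.pi * (ξ * x)| := by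
      by_cases hy : |2 * Real.pi * (ξ * x)| ≤ 2
      · have := Real.one_sub_sq_div_two_le_cos (x := 2 * Real.pi * (ξ * x))
        have h3 : (2 * Real.pi * (ξ * x)) ^ 2 = |2 * Real.pi * (ξ * x)| ^ 2 := (sq_abs _).symm
        have h4 := abs_nonneg (2 * Real.pi * (ξ * x))
        nlinarith
      · push Not at hy
        have := Real.neg_one_le_cos (2 * Real.pi * (ξ * x))
        linarith
    refine h1.trans ?_
    rw [abs_mul, abs_mul, abs_mul, abs_of_pos Real.pi_pos, abs_two]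
    have : 0 ≤ Real.pi * |x| := by positivity
    nlinarith
  · push Not at h
    rw [bmp_zero ξ h]
    simp

theorem mother : S_MOTHER := by
  have h0 := phi_zero_pos
  have hsq : ∀ x, |phi x / phi 0| ≤ 1 := by
    intro x
    rw [abs_div, abs_of_pos h0, div_le_one h0, abs_le]
    constructor
    · linarith [phi_add_pos x]
    · linarith [phi_sub_nonneg x]
  have hsq1 : ∀ x, x ≠ 0 → |phi x / phi 0| < 1 := by
    intro x hx
    rw [abs_div, abs_of_pos h0, div_lt_one h0, abs_lt]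
    constructor
    · linarith [phi_add_pos x]
    · linarith [phi_sub_pos x hx]
  refine ⟨fun x => (phi x / phi 0) ^ 2, fun x => sq_nonneg _, fun x => ?_, ?_, ?_, ?_, ?_, ?_⟩
  · show (phi x / phi 0) ^ 2 ≤ 1
    rw [← sq_abs]
    exact pow_le_one₀ (abs_nonneg _) (hsq x)
  · simp only
    rw [div_self h0.ne', one_pow]
  · exact (phi_cont.div_const _).pow 2
  · intro r hr
    have ht : Tendsto (fun x => (phi x / phi 0) ^ 2) (cocompact ℝ) (𝓝 0) := by
      have := (phi_tends.div_const (phi 0)).pow 2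
      simpa using this
    have h1 : ∀ᶠ x in cocompact ℝ, (phi x / phi 0) ^ 2 < 1 / 2 :=
      ht.eventually (gt_mem_nhds (by norm_num))
    obtain ⟨K, hK, hK2⟩ := mem_cocompact.mp h1
    have hKc : IsCompact (K ∩ {x : ℝ | r ≤ |x|}) :=
      hK.inter_right (isClosed_le continuous_const continuous_abs)
    by_cases hne : (K ∩ {x : ℝ | r ≤ |x|}).Nonempty
    · obtain ⟨x0, hx0, hmax⟩ := hKc.exists_isMaxOn hne
        (f := fun x => (phi x / phi 0) ^ 2) ((phi_cont.div_const _).pow 2).continuousOn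
      have hx0' : x0 ≠ 0 := by
        rintro rfl
        have : r ≤ |(0 : ℝ)| := hx0.2
        rw [abs_zero] at this
        linarith
      have hlt : (phi x0 / phi 0) ^ 2 < 1 := by
        rw [← sq_abs]
        exact pow_lt_one₀ (abs_nonneg _) (hsq1 x0 hx0') (by norm_num)
      refine ⟨min (1 / 2) (1 - (phi x0 / phi 0) ^ 2), lt_min (by norm_num) (by linarith),
        fun x hx => ?_⟩
      by_cases hxK : x ∈ K
      · have h2 : (phi x / phi 0) ^ 2 ≤ (phi x0 / phi 0) ^ 2 := hmax ⟨hxK, hx⟩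
        have h3 := min_le_right (1 / 2 : ℝ) (1 - (phi x0 / phi 0) ^ 2)
        simp only
        linarith
      · have h2 : (phi x / phi 0) ^ 2 < 1 / 2 := hK2 hxK
        have h3 := min_le_left (1 / 2 : ℝ) (1 - (phi x0 / phi 0) ^ 2)
        simp only
        linarith
    · refine ⟨1 / 2, by norm_num, fun x hx => ?_⟩
      have hxK : x ∉ K := fun h => hne ⟨x, h, hx⟩
      have h2 : (phi x / phi 0) ^ 2 < 1 / 2 := hK2 hxK
      simp only
      linarith
  · refine ⟨2 * Real.pi, fun x => ?_⟩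
    have h1 := phi_lip x
    have h2 := hsq x
    rw [abs_le] at h2
    have h3 : 1 - phi x / phi 0 ≤ Real.pi * |x| := by
      rw [one_sub_div h0.ne', div_le_iff₀ h0]
      exact h1
    have h4 : 0 ≤ 1 - phi x / phi 0 := by linarith
    simp only
    nlinarith
  · intro ε hε
    -- the band of the transform of the bump
    have hB : BL (1 / 2) (𝓕 Bf) := by
      intro ξ hξ
      rw [fourier_fourier, Bf_apply, bmp_zero _ (by rw [abs_neg]; exact hξ.le)]
      simp
    obtain ⟨h, hh, hBL⟩ := mul (1 / 2) (1 / 2) (𝓕 Bf) (𝓕 Bf) hB hB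
    rw [show (1 / 2 + 1 / 2 : ℝ) = 1 by norm_num] at hBL
    obtain ⟨Ψ, hΨ, hΨ2⟩ := scale ε hε h hBL
    refine ⟨(((phi 0 ^ 2)⁻¹ : ℝ) : ℂ) • Ψ, fun x => ?_, fun ξ hξ => ?_⟩
    · show (((phi 0 ^ 2)⁻¹ : ℝ) : ℂ) * Ψ x = _
      rw [hΨ, hh, phi_eq]
      push_cast
      rw [div_pow]
      field_simp
    · rw [FourierTransform.fourier_smul]
      show (((phi 0 ^ 2)⁻¹ : ℝ) : ℂ) * 𝓕 Ψ ξ = 0
      rw [hΨ2 ξ hξ, mul_zero]

end R974.SP
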