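import Pool.Agent.R974.SP.Base

set_option autoImplicit false

namespace R974.SP

open MeasureTheory Filter Topology R59.SP
open scoped SchwartzMap FourierTransform ENNReal ComplexConjugate ComplexOrder

/-- a polynomial of degree less than `M` which is `O(|x|^M)` vanishes -/
lemma coeff_zero (M : ℕ) (c : ℕ → ℂ) (C : ℝ)
    (h : ∀ x : ℝ, 0 < x → x ≤ 1 → ‖∑ k ∈ Finset.range M, (x : ℂ) ^ k * c k‖ ≤ C * x ^ M) :
    ∀ k, k < M → c k = 0 := by
  intro k
  induction k using Nat.strong_induction_on with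
  | _ k ih =>
    intro hk
    -- the function divided by `x ^ k`
    have h1 : ∀ x : ℝ, ∑ j ∈ Finset.range M, (x : ℂ) ^ j * c j =
        (x : ℂ) ^ k * ∑ j ∈ Finset.range (M - k), (x : ℂ) ^ j * c (k + j) := by
      intro x
      obtain ⟨d, rfl⟩ := Nat.exists_eq_add_of_lt hk
      rw [show k + d + 1 = k + (d + 1) by ring, Finset.sum_range_add, Nat.add_sub_cancel_left]
      rw [Finset.sum_eq_zero, zero_add, Finset.mul_sum]
      · refine Finset.sum_congr rfl fun j _ => ?_
        rw [pow_add]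
        ring
      · intro j hj
        rw [ih j (Finset.mem_range.mp hj) (by have := Finset.mem_range.mp hj; omega), mul_zero]
    have h2 : ∀ x : ℝ, 0 < x → x ≤ 1 →
        ‖∑ j ∈ Finset.range (M - k), (x : ℂ) ^ j * c (k + j)‖ ≤ C * x ^ (M - k) := by
      intro x hx hx1
      have := h x hx hx1
      rw [h1, norm_mul, norm_pow, Complex.norm_real, Real.norm_of_nonneg hx.le] at this
      have h3 : C * x ^ M = x ^ k * (C * x ^ (M - k)) := by
        rw [mul_left_comm, ← pow_add, Nat.add_sub_cancel' hk.le]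
      rw [h3] at this
      exact le_of_mul_le_mul_left this (pow_pos hx k)
    have t1 : Tendsto (fun x : ℝ => ‖∑ j ∈ Finset.range (M - k), (x : ℂ) ^ j * c (k + j)‖)
        (𝓝[>] 0) (𝓝 ‖c k‖) := by
      have hc : Continuous (fun x : ℝ =>
          ‖∑ j ∈ Finset.range (M - k), (x : ℂ) ^ j * c (k + j)‖) := by fun_prop
      have := (hc.tendsto 0).mono_left (nhdsWithin_le_nhds (s := Set.Ioi (0 : ℝ)))
      refine this.congr' ?_ |>.trans ?_
      · exact Eventually.of_forall fun x => rfl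
      · obtain ⟨d, hd⟩ : ∃ d, M - k = d + 1 := ⟨M - k - 1, by omega⟩
        rw [hd, Finset.sum_range_succ']
        simp
    have t2 : Tendsto (fun x : ℝ => C * x ^ (M - k)) (𝓝[>] 0) (𝓝 0) := by
      have hc : Continuous (fun x : ℝ => C * x ^ (M - k)) := by fun_prop
      have := (hc.tendsto 0).mono_left (nhdsWithin_le_nhds (s := Set.Ioi (0 : ℝ)))
      rwa [zero_pow (by omega), mul_zero] at this
    have h4 : ‖c k‖ ≤ 0 := by
      refine le_of_tendsto_of_tendsto t1 t2 ?_
      have : ∀ᶠ x : ℝ in 𝓝[>] 0, x ≤ 1 :=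
        nhdsWithin_le_nhds (Iic_mem_nhds zero_lt_one)
      filter_upwards [this, self_mem_nhdsWithin] with x hx hx0
      exact h2 x hx0 hx
    exact norm_le_zero_iff.mp h4

lemma exp_rem (t : ℝ) (ht : 0 ≤ t) (M : ℕ) :
    Real.exp t - ∑ m ∈ Finset.range M, t ^ m / (m.factorial : ℝ) ≤
      t ^ M * Real.exp t / (M.factorial : ℝ) := by
  have hs : HasSum (fun k : ℕ => t ^ k / (k.factorial : ℝ)) (Real.exp t) := by
    have := NormedSpace.expSeries_div_hasSum_exp (𝔸 := ℝ) t
    rwa [← Real.exp_eq_exp_ℝ] at this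
  have h1 := hs.summable.sum_add_tsum_nat_add M
  rw [hs.tsum_eq] at h1
  have h2 : Real.exp t - ∑ m ∈ Finset.range M, t ^ m / (m.factorial : ℝ) =
      ∑' i : ℕ, t ^ (i + M) / ((i + M).factorial : ℝ) := by linarith
  rw [h2]
  have hs2 : HasSum (fun k : ℕ => t ^ M / (M.factorial : ℝ) * (t ^ k / (k.factorial : ℝ)))
      (t ^ M / (M.factorial : ℝ) * Real.exp t) := hs.mul_left _
  have h3 : t ^ M * Real.exp t / (M.factorial : ℝ) = t ^ M / (M.factorial : ℝ) * Real.exp t := by
    ring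
  rw [h3, ← hs2.tsum_eq]
  refine Summable.tsum_le_tsum (fun i => ?_) ((summable_nat_add_iff M).mpr hs.summable) hs2.summable
  rw [div_mul_div_comm, ← pow_add, add_comm M i]
  have hle : ((M.factorial : ℝ) * (i.factorial : ℝ)) ≤ ((i + M).factorial : ℝ) := by
    have := Nat.le_of_dvd (Nat.factorial_pos _) (Nat.factorial_mul_factorial_dvd_factorial_add M i)
    rw [add_comm i M]
    exact_mod_cast this
  gcongr

theorem pw2 : S_PW2 := by
  intro σ hσ F hF M hC x
  obtain ⟨C, hC⟩ := hC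
  set A : ℝ := ∫ ξ : ℝ, ‖𝓕 F ξ‖ with hA
  have hint : Integrable (fun ξ => 𝓕 F ξ) := (𝓕 F).integrable
  have hA0 : 0 ≤ A := integral_nonneg fun _ => norm_nonneg _
  -- moments
  have hmom : ∀ k : ℕ, Integrable (fun ξ : ℝ => (2 * Real.pi * Complex.I * ξ) ^ k * 𝓕 F ξ) := by
    intro k
    have h1 : Integrable (fun ξ : ℝ => (2 * Real.pi * σ) ^ k * ‖𝓕 F ξ‖) := hint.norm.const_mul _
    refine h1.mono' ?_ ?_
    · refine Continuous.aestronglyMeasurable ?_
      have := (𝓕 F).continuous
      fun_prop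
    · refine Eventually.of_forall fun ξ => ?_
      rw [norm_mul, norm_pow]
      by_cases h : |ξ| ≤ σ
      · gcongr
        simp only [norm_mul, Complex.norm_ofNat, Complex.norm_real, Complex.norm_I, mul_one,
          Real.norm_eq_abs, abs_of_pos Real.pi_pos]
        gcongr
      · push Not at h
        rw [hF ξ h, norm_zero, mul_zero, mul_zero]
  set c : ℕ → ℂ := fun k => ((k.factorial : ℂ))⁻¹ *
    ∫ ξ : ℝ, (2 * Real.pi * Complex.I * ξ) ^ k * 𝓕 F ξ with hc
  let T : ℝ → ℝ := fun x => (2 * Real.pi * σ * |x|) ^ M * Real.exp (2 * Real.pi * σ * |x|)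
      / (M.factorial : ℝ)
  have hT0 : ∀ x, 0 ≤ T x := fun x => by positivity
  -- the remainder
  have hrem : ∀ x : ℝ, ‖F x - ∑ k ∈ Finset.range M, (x : ℂ) ^ k * c k‖ ≤ T x * A := by
    intro x
    have e1 : ∑ k ∈ Finset.range M, (x : ℂ) ^ k * c k =
        ∫ ξ : ℝ, (∑ k ∈ Finset.range M, (((2 * Real.pi * (ξ * x) : ℝ) : ℂ) * Complex.I) ^ k /
          (k.factorial : ℂ)) * 𝓕 F ξ := by
      simp_rw [Finset.sum_mul]
      rw [integral_finsetSum]
      · refine Finset.sum_congr rfl fun k _ => ?_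
        rw [hc]
        simp only
        rw [← integral_const_mul, ← integral_const_mul]
        refine integral_congr_ae (Eventually.of_forall fun ξ => ?_)
        simp only
        push_cast
        rw [show (2 * (Real.pi : ℂ) * ((ξ : ℂ) * (x : ℂ)) * Complex.I) =
          (x : ℂ) * (2 * Real.pi * Complex.I * ξ) by ring, mul_pow]
        ring
      · intro k _
        have := ((hmom k).const_mul ((x : ℂ) ^ k * ((k.factorial : ℂ))⁻¹))
        refine this.congr (Eventually.of_forall fun ξ => ?_)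
        simp only
        push_cast
        rw [show (2 * (Real.pi : ℂ) * ((ξ : ℂ) * (x : ℂ)) * Complex.I) =
          (x : ℂ) * (2 * Real.pi * Complex.I * ξ) by ring, mul_pow]
        ring
    have i1 : Integrable (fun ξ : ℝ =>
        Complex.exp (((2 * Real.pi * (ξ * x) : ℝ) : ℂ) * Complex.I) * 𝓕 F ξ) := by
      refine hint.norm.mono' ?_ ?_
      · refine Continuous.aestronglyMeasurable ?_
        have := (𝓕 F).continuous
        fun_prop
      · refine Eventually.of_forall fun ξ => ?_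
        rw [norm_mul, norm_char, one_mul]
    have i2 : Integrable (fun ξ : ℝ => (∑ k ∈ Finset.range M,
        (((2 * Real.pi * (ξ * x) : ℝ) : ℂ) * Complex.I) ^ k / (k.factorial : ℂ)) * 𝓕 F ξ) := by
      simp_rw [Finset.sum_mul]
      refine integrable_finsetSum _ fun k _ => ?_
      have := ((hmom k).const_mul ((x : ℂ) ^ k * ((k.factorial : ℂ))⁻¹))
      refine this.congr (Eventually.of_forall fun ξ => ?_)
      simp only
      push_cast
      rw [show (2 * (Real.pi : ℂ) * ((ξ : ℂ) * (x : ℂ)) * Complex.I) =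
        (x : ℂ) * (2 * Real.pi * Complex.I * ξ) by ring, mul_pow]
      ring
    rw [e1, inv_formula F x, ← integral_sub i1 i2]
    refine (norm_integral_le_integral_norm _).trans ?_
    rw [hA, ← integral_const_mul]
    refine integral_mono_of_nonneg (Eventually.of_forall fun ξ => norm_nonneg _)
      (hint.norm.const_mul _) (Eventually.of_forall fun ξ => ?_)
    simp only
    rw [← sub_mul, norm_mul]
    by_cases h : |ξ| ≤ σ
    · refine mul_le_mul_of_nonneg_right ?_ (norm_nonneg _)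
      refine (Complex.norm_exp_sub_sum_le_exp_norm_sub_sum _ M).trans ?_
      refine (exp_rem _ (norm_nonneg _) M).trans ?_
      have hz : ‖(((2 * Real.pi * (ξ * x) : ℝ) : ℂ) * Complex.I)‖ ≤ 2 * Real.pi * σ * |x| := by
        rw [norm_mul, Complex.norm_real, Complex.norm_I, mul_one, Real.norm_eq_abs, abs_mul,
          abs_mul, abs_mul, abs_of_pos Real.pi_pos, abs_two]
        calc 2 * Real.pi * (|ξ| * |x|) ≤ 2 * Real.pi * (σ * |x|) := by gcongr
          _ = _ := by ring
      have hpos : 0 ≤ ‖(((2 * Real.pi * (ξ * x) : ℝ) : ℂ) * Complex.I)‖ := norm_nonneg _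
      show _ ≤ (2 * Real.pi * σ * |x|) ^ M * Real.exp (2 * Real.pi * σ * |x|) / (M.factorial : ℝ)
      gcongr
    · push Not at h
      rw [hF ξ h, norm_zero, mul_zero, mul_zero]
  -- the coefficients vanish
  have hzero : ∀ k, k < M → c k = 0 := by
    refine coeff_zero M c (C + (2 * Real.pi * σ) ^ M * Real.exp (2 * Real.pi * σ)
      / (M.factorial : ℝ) * A) ?_
    intro x hx hx1
    have h1 := hrem x
    have h2 := hC x (by rw [abs_of_pos hx]; exact hx1)
    rw [abs_of_pos hx] at h2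
    have h3 : T x ≤ (2 * Real.pi * σ) ^ M * Real.exp (2 * Real.pi * σ)
      / (M.factorial : ℝ) * x ^ M := by
      show (2 * Real.pi * σ * |x|) ^ M * Real.exp (2 * Real.pi * σ * |x|) / (M.factorial : ℝ) ≤ _
      rw [abs_of_pos hx, mul_pow]
      have : Real.exp (2 * Real.pi * σ * x) ≤ Real.exp (2 * Real.pi * σ) := by
        apply Real.exp_le_exp.mpr
        have : 0 ≤ 2 * Real.pi * σ := by positivity
        nlinarith
      calc (2 * Real.pi * σ) ^ M * x ^ M * Real.exp (2 * Real.pi * σ * x) / (M.factorial : ℝ)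
          ≤ (2 * Real.pi * σ) ^ M * x ^ M * Real.exp (2 * Real.pi * σ) / (M.factorial : ℝ) := by
            gcongr
        _ = _ := by ring
    have h4 : ‖∑ k ∈ Finset.range M, (x : ℂ) ^ k * c k‖ ≤
        ‖F x‖ + ‖F x - ∑ k ∈ Finset.range M, (x : ℂ) ^ k * c k‖ := by
      have : ∑ k ∈ Finset.range M, (x : ℂ) ^ k * c k =
        F x - (F x - ∑ k ∈ Finset.range M, (x : ℂ) ^ k * c k) := by ring
      calc ‖∑ k ∈ Finset.range M, (x : ℂ) ^ k * c k‖ =
          ‖F x - (F x - ∑ k ∈ Finset.range M, (x : ℂ) ^ k * c k)‖ := by rw [← this]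
        _ ≤ _ := norm_sub_le _ _
    have h5 : T x * A ≤ (2 * Real.pi * σ) ^ M * Real.exp (2 * Real.pi * σ)
      / (M.factorial : ℝ) * x ^ M * A := by gcongr
    calc ‖∑ k ∈ Finset.range M, (x : ℂ) ^ k * c k‖
        ≤ C * x ^ M + (2 * Real.pi * σ) ^ M * Real.exp (2 * Real.pi * σ)
          / (M.factorial : ℝ) * x ^ M * A := by linarith
      _ = _ := by ring
  have h6 := hrem x
  have h7 : ∑ k ∈ Finset.range M, (x : ℂ) ^ k * c k = 0 := by
    refine Finset.sum_eq_zero fun k hk => ?_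
    rw [hzero k (Finset.mem_range.mp hk), mul_zero]
  rw [h7, sub_zero] at h6
  have h8 := cs hσ hF
  calc ‖F x‖ ^ 2 ≤ (T x * A) ^ 2 := by gcongr
    _ = (T x) ^ 2 * A ^ 2 := by ring
    _ ≤ (T x) ^ 2 * (2 * σ * ∫ y : ℝ, ‖F y‖ ^ 2) := by gcongr
    _ = _ := by
      show ((2 * Real.pi * σ * |x|) ^ M * Real.exp (2 * Real.pi * σ * |x|)
        / (M.factorial : ℝ)) ^ 2 * (2 * σ * ∫ y : ℝ, ‖F y‖ ^ 2) = _
      ring

end R974.SP
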