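import Pool.Agent.R59.SP.Defs

set_option autoImplicit false

namespace R974.SP

open MeasureTheory Filter Topology R59.SP
open scoped SchwartzMap FourierTransform ENNReal ComplexConjugate ComplexOrder

/-- inversion formula -/
lemma inv_formula (F : 𝓢(ℝ, ℂ)) (x : ℝ) :
    F x = ∫ ξ : ℝ, Complex.exp (((2 * Real.pi * (ξ * x) : ℝ) : ℂ) * Complex.I) * 𝓕 F ξ := by
  have h1 : (𝓕⁻ (𝓕 F)) x = F x := by
    rw [FourierTransform.fourierInv_fourier_eq]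
  rw [← h1, SchwartzMap.fourierInv_coe, Real.fourierInv_eq']
  refine integral_congr_ae (Eventually.of_forall fun ξ => ?_)
  simp only [smul_eq_mul]
  congr 3
  simp [mul_comm]

lemma norm_char (t : ℝ) : ‖Complex.exp (((t : ℝ) : ℂ) * Complex.I)‖ = 1 :=
  Complex.norm_exp_ofReal_mul_I t

/-- the transform vanishes off the band -/
lemma ind_eq {σ : ℝ} {F : 𝓢(ℝ, ℂ)} (hF : BL σ F) (ξ : ℝ) :
    ‖𝓕 F ξ‖ = (Set.Icc (-σ) σ).indicator (fun ξ => ‖𝓕 F ξ‖) ξ := by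
  by_cases h : ξ ∈ Set.Icc (-σ) σ
  · rw [Set.indicator_of_mem h]
  · rw [Set.indicator_of_notMem h]
    have : σ < |ξ| := by
      by_contra h'
      push Not at h'
      exact h (abs_le.mp h')
    rw [hF ξ this, norm_zero]

lemma int_sq (F : 𝓢(ℝ, ℂ)) : Integrable (fun ξ => ‖F ξ‖ ^ 2) :=
  (F.memLp 2 volume).integrable_norm_pow (by norm_num)

/-- Cauchy-Schwarz -/
lemma cs {σ : ℝ} (hσ : 0 < σ) {F : 𝓢(ℝ, ℂ)} (hF : BL σ F) :
    (∫ ξ : ℝ, ‖𝓕 F ξ‖) ^ 2 ≤ 2 * σ * ∫ y : ℝ, ‖F y‖ ^ 2 := by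
  have h1 : (∫ ξ : ℝ, ‖𝓕 F ξ‖) = ∫ ξ in Set.Icc (-σ) σ, ‖𝓕 F ξ‖ := by
    rw [← integral_indicator measurableSet_Icc]
    exact integral_congr_ae (Eventually.of_forall fun ξ => ind_eq hF ξ)
  set m : ℝ := ∫ ξ in Set.Icc (-σ) σ, ‖𝓕 F ξ‖ with hm
  have hint1 : Integrable (fun ξ => ‖𝓕 F ξ‖) := (𝓕 F).integrable.norm
  have hint2 : Integrable (fun ξ => ‖𝓕 F ξ‖ ^ 2) := int_sq (𝓕 F)
  have hvol : (volume.restrict (Set.Icc (-σ) σ)).real Set.univ = 2 * σ := by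
    rw [Measure.real, Measure.restrict_apply_univ, Real.volume_Icc, ENNReal.toReal_ofReal (by linarith)]
    ring
  have h2 : 0 ≤ ∫ ξ in Set.Icc (-σ) σ, (‖𝓕 F ξ‖ - m / (2 * σ)) ^ 2 :=
    integral_nonneg fun ξ => sq_nonneg _
  have h3 : ∫ ξ in Set.Icc (-σ) σ, (‖𝓕 F ξ‖ - m / (2 * σ)) ^ 2 =
      (∫ ξ in Set.Icc (-σ) σ, ‖𝓕 F ξ‖ ^ 2) - m ^ 2 / (2 * σ) := by
    have e1 : ∀ ξ, (‖𝓕 F ξ‖ - m / (2 * σ)) ^ 2 =
        ‖𝓕 F ξ‖ ^ 2 - (m / σ) * ‖𝓕 F ξ‖ + (m / (2 * σ)) ^ 2 := by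
      intro ξ
      field_simp
      ring
    have i1 : IntegrableOn (fun ξ => ‖𝓕 F ξ‖ ^ 2) (Set.Icc (-σ) σ) := hint2.integrableOn
    have i2 : IntegrableOn (fun ξ => (m / σ) * ‖𝓕 F ξ‖) (Set.Icc (-σ) σ) :=
      (hint1.const_mul _).integrableOn
    have i3 : IntegrableOn (fun _ : ℝ => (m / (2 * σ)) ^ 2) (Set.Icc (-σ) σ) := by
      exact continuous_const.integrableOn_Icc
    calc ∫ ξ in Set.Icc (-σ) σ, (‖𝓕 F ξ‖ - m / (2 * σ)) ^ 2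
        = ∫ ξ in Set.Icc (-σ) σ, (‖𝓕 F ξ‖ ^ 2 - (m / σ) * ‖𝓕 F ξ‖ + (m / (2 * σ)) ^ 2) := by
          refine integral_congr_ae (Eventually.of_forall fun ξ => e1 ξ)
      _ = (∫ ξ in Set.Icc (-σ) σ, ‖𝓕 F ξ‖ ^ 2) - (m / σ) * m + (2 * σ) * (m / (2 * σ)) ^ 2 := by
          have i12 : IntegrableOn (fun ξ => ‖𝓕 F ξ‖ ^ 2 - (m / σ) * ‖𝓕 F ξ‖)
            (Set.Icc (-σ) σ) := i1.sub i2
          rw [integral_add i12 i3, integral_sub i1 i2, integral_const_mul,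
            integral_const, hvol, smul_eq_mul]
      _ = _ := by field_simp; ring
  have h4 : ∫ ξ in Set.Icc (-σ) σ, ‖𝓕 F ξ‖ ^ 2 ≤ ∫ ξ, ‖𝓕 F ξ‖ ^ 2 :=
    setIntegral_le_integral hint2 (Eventually.of_forall fun ξ => sq_nonneg _)
  rw [SchwartzMap.integral_norm_sq_fourier] at h4
  rw [h3] at h2
  rw [h1]
  have h5 : m ^ 2 / (2 * σ) ≤ ∫ y : ℝ, ‖F y‖ ^ 2 := by linarith
  rw [div_le_iff₀ (by linarith)] at h5
  linarith

theorem pw1 : S_PW1 := by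
  intro σ hσ F hF x
  have h1 : ‖F x‖ ≤ ∫ ξ : ℝ, ‖𝓕 F ξ‖ := by
    rw [inv_formula F x]
    refine (norm_integral_le_integral_norm _).trans (le_of_eq ?_)
    refine integral_congr_ae (Eventually.of_forall fun ξ => ?_)
    simp only [norm_mul, norm_char, one_mul]
  calc ‖F x‖ ^ 2 ≤ (∫ ξ : ℝ, ‖𝓕 F ξ‖) ^ 2 := by gcongr
    _ ≤ _ := cs hσ hF

theorem mul : S_MUL := by
  intro σ τ f g hf hg
  let G : 𝓢(ℝ, ℂ) := SchwartzMap.convolution (ContinuousLinearMap.mul ℂ ℂ) (𝓕⁻ f) (𝓕⁻ g)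
  have hG : 𝓕 G = SchwartzMap.pairing (ContinuousLinearMap.mul ℂ ℂ) f g := by
    show 𝓕 (SchwartzMap.convolution (ContinuousLinearMap.mul ℂ ℂ) (𝓕⁻ f) (𝓕⁻ g)) = _
    rw [SchwartzMap.fourier_convolution]
    simp
  have hinv : ∀ (k : 𝓢(ℝ, ℂ)) (x : ℝ), (𝓕⁻ k) x = (𝓕 k) (-x) := by
    intro k x
    rw [SchwartzMap.fourierInv_coe, SchwartzMap.fourier_coe, Real.fourierInv_eq_fourier_neg]
  refine ⟨𝓕 G, fun x => ?_, fun ξ hξ => ?_⟩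
  · rw [hG]
    simp [SchwartzMap.pairing_apply_apply]
  · have h1 : 𝓕 (𝓕 G) ξ = G (-ξ) := by
      have := hinv (𝓕 G) (-ξ)
      rw [neg_neg] at this
      rw [← this, FourierTransform.fourierInv_fourier_eq]
    rw [h1]
    show (SchwartzMap.convolution (ContinuousLinearMap.mul ℂ ℂ) (𝓕⁻ f) (𝓕⁻ g)) (-ξ) = 0
    rw [SchwartzMap.convolution_apply, convolution]
    rw [integral_eq_zero_of_ae]
    refine Eventually.of_forall fun t => ?_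
    simp only [ContinuousLinearMap.mul_apply', Pi.zero_apply, mul_eq_zero]
    by_contra hcon
    push Not at hcon
    obtain ⟨c1, c2⟩ := hcon
    rw [hinv] at c1 c2
    have a1 : |t| ≤ σ := by
      by_contra h
      push Not at h
      exact c1 (hf (-t) (by rwa [abs_neg]))
    have a2 : |-(-ξ - t)| ≤ τ := by
      by_contra h
      push Not at h
      exact c2 (hg _ h)
    have : |ξ| ≤ σ + τ := by
      have : ξ = -(-ξ - t) - t := by ring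
      calc |ξ| = |-(-ξ - t) - t| := by rw [← this]
        _ ≤ |-(-ξ - t)| + |t| := abs_sub _ _
        _ ≤ _ := by linarith
    linarith

end R974.SP
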