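import Pool.Agent.R974.SP.Base

set_option autoImplicit false

noncomputable section

namespace R974.SP.Ker

open MeasureTheory Filter Topology R59.SP R974.SP
open scoped SchwartzMap FourierTransform ENNReal ComplexConjugate ComplexOrder ContDiff

/-- the basic bump, centred at one half -/
def bmp (n : ℕ) : ContDiffBump (1 / 2 : ℝ) :=
  ⟨1 / 2 - 1 / (4 * ((n : ℝ) + 1)), 1 / 2, by
    have : 1 / (4 * ((n : ℝ) + 1)) ≤ 1 / 4 := by
      apply one_div_le_one_div_of_le (by norm_num)
      have : (0 : ℝ) ≤ n := n.cast_nonneg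
      linarith
    linarith, by
    have : 0 < 1 / (4 * ((n : ℝ) + 1)) := by positivity
    linarith⟩

/-- number of cells, as a real -/
def q (n : ℕ) : ℝ := (n : ℝ) + 1

lemma q_pos (n : ℕ) : 0 < q n := by unfold q; positivity

def bet (n a : ℕ) (ξ : ℝ) : ℝ := bmp n (q n * (ξ + 1 / 2) - a)

lemma bet_nonneg (n a : ℕ) (ξ : ℝ) : 0 ≤ bet n a ξ := (bmp n).nonneg

lemma bet_le_one (n a : ℕ) (ξ : ℝ) : bet n a ξ ≤ 1 := (bmp n).le_one

/-- left end of a cell -/
def le (n : ℕ) (a : ℕ) : ℝ := -(1 / 2) + a / q n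

lemma le_succ (n a : ℕ) : le n (a + 1) = le n a + 1 / q n := by
  unfold le
  push_cast
  ring

lemma bet_supp (n a : ℕ) (ξ : ℝ) (h : bet n a ξ ≠ 0) : ξ ∈ Set.Ioo (le n a) (le n (a + 1)) := by
  have h1 : q n * (ξ + 1 / 2) - a ∈ Function.support (bmp n) := h
  rw [(bmp n).support_eq, Metric.mem_ball, Real.dist_eq] at h1
  have h2 : (bmp n).rOut = 1 / 2 := rfl
  rw [h2, abs_lt] at h1
  have hq := q_pos n
  constructor
  · have : (a : ℝ) < q n * (ξ + 1 / 2) := by linarith [h1.1]
    unfold le
    have h3 : (a : ℝ) / q n < ξ + 1 / 2 := by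
      rw [div_lt_iff₀ hq]; linarith
    linarith
  · have : q n * (ξ + 1 / 2) < (a : ℝ) + 1 := by linarith [h1.2]
    unfold le
    have h3 : ξ + 1 / 2 < (a + 1 : ℝ) / q n := by
      rw [lt_div_iff₀ hq]; linarith
    push_cast
    linarith

lemma bet_one (n a : ℕ) (ξ : ℝ)
    (h : |q n * (ξ + 1 / 2) - a - 1 / 2| ≤ 1 / 2 - 1 / (4 * q n)) : bet n a ξ = 1 := by
  apply (bmp n).one_of_mem_closedBall
  rw [Metric.mem_closedBall, Real.dist_eq]
  exact h

lemma bet_smooth (n a : ℕ) : ContDiff ℝ ∞ (bet n a) :=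
  (bmp n).contDiff.comp (by fun_prop)

lemma bet_cont (n a : ℕ) : Continuous (bet n a) := (bet_smooth n a).continuous

lemma bet_cs (n a : ℕ) : HasCompactSupport (bet n a) := by
  refine HasCompactSupport.intro (K := Set.Icc (le n a) (le n (a + 1))) isCompact_Icc ?_
  intro x hx
  by_contra h
  exact hx (Set.Ioo_subset_Icc_self (bet_supp n a x h))

lemma bet_int (n a : ℕ) : Integrable (bet n a) :=
  (bet_cont n a).integrable_of_hasCompactSupport (bet_cs n a)

lemma cell_vol (n a : ℕ) : ∫ _ξ in Set.Ioo (le n a) (le n (a + 1)), (1 : ℝ) = 1 / q n := by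
  rw [setIntegral_const, Measure.real, Real.volume_Ioo, le_succ, smul_eq_mul, mul_one,
    ENNReal.toReal_ofReal]
  · ring
  · have := q_pos n
    have : 0 < 1 / q n := by positivity
    linarith

lemma bet_integral_eq (n a : ℕ) (f : ℝ → ℂ) :
    ∫ ξ, (bet n a ξ : ℂ) * f ξ = ∫ ξ in Set.Ioo (le n a) (le n (a + 1)), (bet n a ξ : ℂ) * f ξ := by
  rw [setIntegral_eq_integral_of_forall_compl_eq_zero]
  intro x hx
  have : bet n a x = 0 := by
    by_contra h
    exact hx (bet_supp n a x h)
  rw [this]; simp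

lemma bet_le_ind (n a : ℕ) (ξ : ℝ) :
    bet n a ξ ≤ (Set.Ioo (le n a) (le n (a + 1))).indicator (fun _ => (1 : ℝ)) ξ := by
  by_cases h : ξ ∈ Set.Ioo (le n a) (le n (a + 1))
  · rw [Set.indicator_of_mem h]
    exact bet_le_one n a ξ
  · rw [Set.indicator_of_notMem h]
    have : bet n a ξ = 0 := by
      by_contra h'
      exact h (bet_supp n a ξ h')
    rw [this]

lemma ind_int (n a : ℕ) :
    Integrable ((Set.Ioo (le n a) (le n (a + 1))).indicator (fun _ => (1 : ℝ))) := by
  rw [integrable_indicator_iff measurableSet_Ioo]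
  exact (continuous_const.integrableOn_Icc (a := le n a) (b := le n (a + 1))).mono_set
    Set.Ioo_subset_Icc_self

lemma bet_integral_le (n a : ℕ) : ∫ ξ, bet n a ξ ≤ 1 / q n := by
  rw [← cell_vol n a, ← integral_indicator measurableSet_Ioo]
  exact integral_mono (bet_int n a) (ind_int n a) (bet_le_ind n a)

lemma bet_sq_int (n a : ℕ) : Integrable (fun ξ => bet n a ξ ^ 2) := by
  have h1 : HasCompactSupport (fun ξ => bet n a ξ * bet n a ξ) := (bet_cs n a).mul_right
  have h2 : Continuous (fun ξ => bet n a ξ * bet n a ξ) := (bet_cont n a).mul (bet_cont n a)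
  refine (h2.integrable_of_hasCompactSupport h1).congr (Eventually.of_forall fun ξ => ?_)
  simp only
  ring

lemma bet_sq_le (n a : ℕ) : ∫ ξ, bet n a ξ ^ 2 ≤ 1 / q n := by
  refine (integral_mono (bet_sq_int n a) (bet_int n a) fun ξ => ?_).trans (bet_integral_le n a)
  have h0 := bet_nonneg n a ξ
  have h1 := bet_le_one n a ξ
  simp only
  nlinarith

/-- the middle of a cell -/
def mid (n a : ℕ) : ℝ := -(1 / 2) + (a + 1 / 2) / q n

lemma bet_integral_ge (n a : ℕ) : 1 / q n - 1 / (2 * q n ^ 2) ≤ ∫ ξ, bet n a ξ := by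
  have hq := q_pos n
  have hq1 : 1 ≤ q n := by
    unfold q
    have : (0 : ℝ) ≤ n := n.cast_nonneg
    linarith
  set ρ : ℝ := (1 / 2 - 1 / (4 * q n)) / q n with hρ
  have hρ0 : 0 ≤ ρ := by
    rw [hρ]
    apply div_nonneg _ hq.le
    have : 1 / (4 * q n) ≤ 1 / 4 := one_div_le_one_div_of_le (by norm_num) (by linarith)
    linarith
  have h1 : ∫ _ξ in Set.Icc (mid n a - ρ) (mid n a + ρ), (1 : ℝ) = 1 / q n - 1 / (2 * q n ^ 2) := by
    rw [setIntegral_const, Measure.real, Real.volume_Icc, smul_eq_mul, mul_one,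
      ENNReal.toReal_ofReal (by linarith)]
    rw [hρ]
    field_simp
    ring
  rw [← h1, ← integral_indicator measurableSet_Icc]
  refine integral_mono ?_ (bet_int n a) fun ξ => ?_
  · rw [integrable_indicator_iff measurableSet_Icc]
    exact continuous_const.integrableOn_Icc
  · by_cases h : ξ ∈ Set.Icc (mid n a - ρ) (mid n a + ρ)
    · rw [Set.indicator_of_mem h]
      refine (bet_one n a ξ ?_).ge
      have h2 : |ξ - mid n a| ≤ ρ := by
        rw [abs_le]
        constructor <;> linarith [h.1, h.2]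
      have h3 : q n * (ξ + 1 / 2) - a - 1 / 2 = q n * (ξ - mid n a) := by
        unfold mid
        field_simp
        ring
      rw [h3, abs_mul, abs_of_pos hq]
      calc q n * |ξ - mid n a| ≤ q n * ρ := by gcongr
        _ = _ := by rw [hρ]; field_simp
    · rw [Set.indicator_of_notMem h]
      exact bet_nonneg n a ξ

/-- the character -/
def e (t : ℝ) : ℂ := Complex.exp (((2 * Real.pi * t : ℝ) : ℂ) * Complex.I)

lemma e_norm (t : ℝ) : ‖e t‖ = 1 := norm_char _

lemma e_cont : Continuous e := by unfold e; fun_prop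

lemma e_lip (s t : ℝ) : ‖e s - e t‖ ≤ 2 * Real.pi * |s - t| := by
  have h1 : e s - e t = e t * (Complex.exp (Complex.I * ((2 * Real.pi * (s - t) : ℝ) : ℂ)) - 1) := by
    unfold e
    rw [mul_sub, ← Complex.exp_add, mul_one]
    congr 2
    push_cast
    ring
  rw [h1, norm_mul, e_norm, one_mul]
  refine (Real.norm_exp_I_mul_ofReal_sub_one_le (x := 2 * Real.pi * (s - t))).trans (le_of_eq ?_)
  rw [Real.norm_eq_abs, abs_mul, abs_mul, abs_two, abs_of_pos Real.pi_pos]

lemma e_conj (s t : ℝ) : e s * conj (e t) = e (s - t) := by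
  unfold e
  rw [← Complex.exp_conj, ← Complex.exp_add]
  congr 1
  simp only [map_mul, Complex.conj_ofReal, Complex.conj_I]
  push_cast
  ring

/-- the integral over a bump -/
def E (n a : ℕ) (x : ℝ) : ℂ := ∫ ξ : ℝ, (bet n a ξ : ℂ) * e (ξ * x)

lemma E_int (n a : ℕ) (x : ℝ) : Integrable (fun ξ : ℝ => (bet n a ξ : ℂ) * e (ξ * x)) := by
  refine (bet_int n a).mono' ?_ ?_
  · refine Continuous.aestronglyMeasurable ?_
    have := bet_cont n a
    have := e_cont
    fun_prop
  · refine Eventually.of_forall fun ξ => ?_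
    rw [norm_mul, e_norm, mul_one, Complex.norm_real, Real.norm_of_nonneg (bet_nonneg n a ξ)]

lemma E_norm (n a : ℕ) (x : ℝ) : ‖E n a x‖ ≤ 1 / q n := by
  refine (norm_integral_le_integral_norm _).trans ?_
  refine le_trans (le_of_eq ?_) (bet_integral_le n a)
  refine integral_congr_ae (Eventually.of_forall fun ξ => ?_)
  simp only
  rw [norm_mul, e_norm, mul_one, Complex.norm_real, Real.norm_of_nonneg (bet_nonneg n a ξ)]

lemma mid_dist (n a : ℕ) (ξ : ℝ) (h : ξ ∈ Set.Icc (le n a) (le n (a + 1))) :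
    |ξ - mid n a| ≤ 1 / q n := by
  have hq := q_pos n
  have h1 : 0 < 1 / q n := by positivity
  rw [le_succ] at h
  have h2 : mid n a = le n a + (1 / q n) / 2 := by
    unfold mid le
    field_simp
    ring
  rw [abs_le, h2]
  constructor <;> linarith [h.1, h.2]

lemma E_approx (n a : ℕ) (x : ℝ) :
    ‖E n a x - ((1 / q n : ℝ) : ℂ) * e (mid n a * x)‖ ≤ (2 * Real.pi * |x| + 1 / 2) / q n ^ 2 := by
  have hq := q_pos n
  have hi : Integrable (fun ξ : ℝ => (bet n a ξ : ℂ)) := (bet_int n a).ofReal
  have h1 : E n a x - ((1 / q n : ℝ) : ℂ) * e (mid n a * x) =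
      (∫ ξ : ℝ, (bet n a ξ : ℂ) * (e (ξ * x) - e (mid n a * x))) -
        (((1 / q n - ∫ ξ, bet n a ξ : ℝ) : ℝ) : ℂ) * e (mid n a * x) := by
    have : ∫ ξ : ℝ, (bet n a ξ : ℂ) * (e (ξ * x) - e (mid n a * x)) =
        E n a x - (((∫ ξ, bet n a ξ : ℝ) : ℝ) : ℂ) * e (mid n a * x) := by
      simp_rw [mul_sub]
      rw [integral_sub (E_int n a x) (hi.mul_const _), integral_mul_const, E,
        integral_complex_ofReal]
    rw [this]
    push_cast
    ring
  rw [h1]
  refine (norm_sub_le _ _).trans ?_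
  have h2 : ‖∫ ξ : ℝ, (bet n a ξ : ℂ) * (e (ξ * x) - e (mid n a * x))‖ ≤
      2 * Real.pi * |x| / q n ^ 2 := by
    refine (norm_integral_le_integral_norm _).trans ?_
    calc ∫ ξ, ‖(bet n a ξ : ℂ) * (e (ξ * x) - e (mid n a * x))‖
        ≤ ∫ ξ, bet n a ξ * (2 * Real.pi * |x| / q n) := by
          refine integral_mono_of_nonneg (Eventually.of_forall fun _ => norm_nonneg _)
            ((bet_int n a).mul_const _) (Eventually.of_forall fun ξ => ?_)
          simp only
          rw [norm_mul, Complex.norm_real, Real.norm_of_nonneg (bet_nonneg n a ξ)]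
          by_cases hb : bet n a ξ = 0
          · rw [hb]; simp
          · refine mul_le_mul_of_nonneg_left ?_ (bet_nonneg n a ξ)
            refine (e_lip _ _).trans ?_
            have h3 := mid_dist n a ξ (Set.Ioo_subset_Icc_self (bet_supp n a ξ hb))
            rw [← sub_mul, abs_mul]
            calc 2 * Real.pi * (|ξ - mid n a| * |x|) ≤ 2 * Real.pi * (1 / q n * |x|) := by
                  have := Real.pi_pos
                  gcongr
              _ = _ := by ring
      _ = (∫ ξ, bet n a ξ) * (2 * Real.pi * |x| / q n) := by rw [integral_mul_const]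
      _ ≤ (1 / q n) * (2 * Real.pi * |x| / q n) := by
          refine mul_le_mul_of_nonneg_right (bet_integral_le n a) ?_
          have := Real.pi_pos
          positivity
      _ = _ := by field_simp
  have h3 : ‖(((1 / q n - ∫ ξ, bet n a ξ : ℝ) : ℝ) : ℂ) * e (mid n a * x)‖ ≤
      (1 / 2) / q n ^ 2 := by
    rw [norm_mul, e_norm, mul_one, Complex.norm_real, Real.norm_eq_abs, abs_of_nonneg
      (by linarith [bet_integral_le n a])]
    have := bet_integral_ge n a
    have h4 : (1 / 2) / q n ^ 2 = 1 / (2 * q n ^ 2) := by field_simp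
    linarith
  calc _ ≤ 2 * Real.pi * |x| / q n ^ 2 + (1 / 2) / q n ^ 2 := add_le_add h2 h3
    _ = _ := by ring

/-- the functions -/
lemma B_cs (n a : ℕ) : HasCompactSupport (fun x : ℝ => ((Real.sqrt (q n) * bet n a x : ℝ) : ℂ)) :=
  (bet_cs n a).comp_left (g := fun r : ℝ => ((Real.sqrt (q n) * r : ℝ) : ℂ)) (by simp)

lemma B_smooth (n a : ℕ) : ContDiff ℝ ∞ (fun x : ℝ => ((Real.sqrt (q n) * bet n a x : ℝ) : ℂ)) :=
  Complex.ofRealCLM.contDiff.comp (contDiff_const.mul (bet_smooth n a))

def B (n a : ℕ) : 𝓢(ℝ, ℂ) := (B_cs n a).toSchwartzMap (B_smooth n a)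

lemma B_apply (n a : ℕ) (x : ℝ) : B n a x = ((Real.sqrt (q n) * bet n a x : ℝ) : ℂ) := rfl

def psi (n a : ℕ) : 𝓢(ℝ, ℂ) := 𝓕⁻ (B n a)

lemma psi_eq (n a : ℕ) (x : ℝ) : psi n a x = (Real.sqrt (q n) : ℂ) * E n a x := by
  rw [inv_formula, E, ← integral_const_mul]
  refine integral_congr_ae (Eventually.of_forall fun ξ => ?_)
  simp only
  rw [psi, FourierTransform.fourier_fourierInv_eq, B_apply, e]
  push_cast
  ring

lemma cell_sub (n a : ℕ) (ha : a < n + 1) (ξ : ℝ) (h : ξ ∈ Set.Ioo (le n a) (le n (a + 1))) :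
    |ξ| ≤ 1 / 2 := by
  have hq := q_pos n
  have h1 : -(1 / 2) ≤ le n a := by
    unfold le
    have : 0 ≤ (a : ℝ) / q n := by positivity
    linarith
  have h2 : le n (a + 1) ≤ 1 / 2 := by
    unfold le
    have : ((a + 1 : ℕ) : ℝ) / q n ≤ 1 := by
      rw [div_le_one hq]
      unfold q
      exact_mod_cast ha
    linarith
  rw [abs_le]
  constructor <;> linarith [h.1, h.2]

lemma disj (n a b : ℕ) (ξ : ℝ) (ha : bet n a ξ ≠ 0) (hb : bet n b ξ ≠ 0) : a = b := by
  have h1 := bet_supp n a ξ ha
  have h2 := bet_supp n b ξ hb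
  have hq := q_pos n
  have key : ∀ c d : ℕ, le n c < le n (d + 1) → c ≤ d := by
    intro c d h
    unfold le at h
    have : (c : ℝ) / q n < ((d + 1 : ℕ) : ℝ) / q n := by linarith
    rw [div_lt_div_iff_of_pos_right hq] at this
    have : c < d + 1 := by exact_mod_cast this
    omega
  have := key a b (h1.1.trans h2.2)
  have := key b a (h2.1.trans h1.2)
  omega

lemma e_integral (z : ℝ) : ∫ ξ in (-(1 / 2) : ℝ)..(1 / 2), e (ξ * z) = ((S z : ℝ) : ℂ) := by
  unfold S
  split_ifs with h
  · subst h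
    simp [e]
    norm_num
  · have hc : (2 * Real.pi * z * Complex.I : ℂ) ≠ 0 := by
      have := Real.pi_ne_zero
      simp [h, this]
    have h1 : ∀ ξ : ℝ, e (ξ * z) = Complex.exp ((2 * Real.pi * z * Complex.I : ℂ) * ξ) := by
      intro ξ
      unfold e
      congr 1
      push_cast
      ring
    simp_rw [h1]
    rw [integral_exp_mul_complex hc]
    push_cast
    have h2 : Complex.sin (Real.pi * z) = (Complex.exp (-(Real.pi * z) * Complex.I) -
      Complex.exp ((Real.pi * z) * Complex.I)) * Complex.I / 2 := rfl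
    rw [h2]
    have e1 : (2 * (Real.pi : ℂ) * z * Complex.I * (1 / 2)) = (Real.pi * z) * Complex.I := by ring
    have e2 : (2 * (Real.pi : ℂ) * z * Complex.I * -(1 / 2)) = -(Real.pi * z) * Complex.I := by ring
    rw [e1, e2]
    have hpz : (Real.pi * z : ℂ) ≠ 0 := by
      have := Real.pi_ne_zero
      simp [h, this]
    rw [div_eq_div_iff hc hpz]
    have hI : Complex.I * Complex.I = -1 := Complex.I_mul_I
    linear_combination (Complex.exp (-(Real.pi * z) * Complex.I) -
      Complex.exp ((Real.pi * z) * Complex.I)) * (Real.pi * z) * (- hI)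

lemma riemann (n : ℕ) (z : ℝ) :
    ‖((S z : ℝ) : ℂ) - ∑ a ∈ Finset.range (n + 1), ((1 / q n : ℝ) : ℂ) * e (mid n a * z)‖ ≤
      2 * Real.pi * |z| / q n := by
  have hq := q_pos n
  have hcont : Continuous (fun ξ : ℝ => e (ξ * z)) := by
    have := e_cont
    fun_prop
  have h0 : le n 0 = -(1 / 2) := by simp [le]
  have h1 : le n (n + 1) = 1 / 2 := by
    unfold le q
    push_cast
    rw [div_self (by positivity)]
    norm_num
  have h2 : ∑ a ∈ Finset.range (n + 1), ∫ ξ in (le n a)..(le n (a + 1)), e (ξ * z) =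
      ((S z : ℝ) : ℂ) := by
    rw [intervalIntegral.sum_integral_adjacent_intervals
      (fun k _ => hcont.intervalIntegrable _ _), h0, h1, e_integral]
  rw [← h2, ← Finset.sum_sub_distrib]
  refine (norm_sum_le _ _).trans ?_
  have h3 : ∀ a ∈ Finset.range (n + 1), ‖(∫ ξ in (le n a)..(le n (a + 1)), e (ξ * z)) -
      ((1 / q n : ℝ) : ℂ) * e (mid n a * z)‖ ≤ 2 * Real.pi * |z| / q n ^ 2 := by
    intro a _
    have h4 : ((1 / q n : ℝ) : ℂ) * e (mid n a * z) =
        ∫ ξ in (le n a)..(le n (a + 1)), e (mid n a * z) := by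
      rw [intervalIntegral.integral_const, le_succ]
      simp
    rw [h4, ← intervalIntegral.integral_sub (hcont.intervalIntegrable _ _)
      (continuous_const.intervalIntegrable _ _)]
    have h5 : ∀ ξ ∈ Set.uIoc (le n a) (le n (a + 1)), ‖e (ξ * z) - e (mid n a * z)‖ ≤
        2 * Real.pi * |z| / q n := by
      intro ξ hξ
      rw [Set.uIoc_of_le (by rw [le_succ]; have : 0 < 1 / q n := by positivity
                             linarith)] at hξ
      have h6 := mid_dist n a ξ (Set.Ioc_subset_Icc_self hξ)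
      refine (e_lip _ _).trans ?_
      rw [← sub_mul, abs_mul]
      calc 2 * Real.pi * (|ξ - mid n a| * |z|) ≤ 2 * Real.pi * (1 / q n * |z|) := by
            have := Real.pi_pos
            gcongr
        _ = _ := by ring
    refine (intervalIntegral.norm_integral_le_of_norm_le_const h5).trans (le_of_eq ?_)
    have hq2 : 0 < 1 / q n := by positivity
    rw [le_succ, add_sub_cancel_left, abs_of_pos hq2]
    field_simp
  refine (Finset.sum_le_sum h3).trans (le_of_eq ?_)
  rw [Finset.sum_const, Finset.card_range, nsmul_eq_mul]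
  have : ((n + 1 : ℕ) : ℝ) = q n := by unfold q; push_cast; ring
  rw [this]
  field_simp

theorem ker : S_KER := by
  refine ⟨fun n => n + 1, fun n a => psi n a, ?_, ?_, ?_, ?_⟩
  · intro n a ξ hξ
    simp only
    rw [psi, FourierTransform.fourier_fourierInv_eq, B_apply]
    have : bet n a ξ = 0 := by
      by_contra h
      have := cell_sub n a a.2 ξ (bet_supp n a ξ h)
      linarith
    rw [this]; simp
  · intro n c
    simp only
    set G : 𝓢(ℝ, ℂ) := ∑ a : Fin (n + 1), c a • psi n a with hG
    have h1 : ∀ x, G x = ∑ a : Fin (n + 1), c a * psi n a x := by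
      intro x
      rw [hG]
      simp
    have h2 : 𝓕 G = ∑ a : Fin (n + 1), c a • B n a := by
      rw [hG]
      have : 𝓕⁻ (∑ a : Fin (n + 1), c a • B n a) = ∑ a : Fin (n + 1), c a • psi n a := by
        rw [← FourierTransform.fourierInvCLM_apply (R := ℂ)]
        simp [psi]
      rw [← this, FourierTransform.fourier_fourierInv_eq]
    have h3 : ∫ x : ℝ, ‖∑ a : Fin (n + 1), c a * psi n a x‖ ^ 2 = ∫ x : ℝ, ‖𝓕 G x‖ ^ 2 := by
      rw [SchwartzMap.integral_norm_sq_fourier]
      refine integral_congr_ae (Eventually.of_forall fun x => ?_)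
      simp only
      rw [h1]
    rw [h3]
    have h4 : ∀ ξ, ‖𝓕 G ξ‖ ^ 2 ≤ ∑ a : Fin (n + 1), ‖c a‖ ^ 2 * (q n * bet n a ξ ^ 2) := by
      intro ξ
      have h5 : 𝓕 G ξ = ∑ a : Fin (n + 1), c a * B n a ξ := by
        rw [h2]
        simp
      rw [h5]
      have hq := q_pos n
      by_cases hex : ∃ a0 : Fin (n + 1), bet n a0 ξ ≠ 0
      · obtain ⟨a0, ha0⟩ := hex
        rw [Finset.sum_eq_single a0]
        · have h6 : ‖c a0 * B n a0 ξ‖ ^ 2 = ‖c a0‖ ^ 2 * (q n * bet n a0 ξ ^ 2) := by
            rw [norm_mul, B_apply, Complex.norm_real, Real.norm_eq_abs, mul_pow, sq_abs, mul_pow,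
              Real.sq_sqrt hq.le]
          rw [h6]
          refine Finset.single_le_sum (f := fun a : Fin (n + 1) =>
            ‖c a‖ ^ 2 * (q n * bet n a ξ ^ 2)) (fun a _ => ?_) (Finset.mem_univ a0)
          positivity
        · intro b _ hb
          have : bet n b ξ = 0 := by
            by_contra h
            exact hb (Fin.ext (disj n b a0 ξ h ha0))
          rw [B_apply, this]; simp
        · intro h
          exact absurd (Finset.mem_univ _) h
      · push Not at hex
        have : ∑ a : Fin (n + 1), c a * B n a ξ = 0 := by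
          refine Finset.sum_eq_zero fun a _ => ?_
          rw [B_apply, hex a]; simp
        rw [this, norm_zero]
        refine le_trans (le_of_eq ?_) (Finset.sum_nonneg fun a _ => ?_)
        · simp
        · positivity
    have hq := q_pos n
    calc ∫ x : ℝ, ‖𝓕 G x‖ ^ 2
        ≤ ∫ x : ℝ, ∑ a : Fin (n + 1), ‖c a‖ ^ 2 * (q n * bet n a x ^ 2) := by
          refine integral_mono (int_sq (𝓕 G)) ?_ h4
          exact integrable_finsetSum _ fun a _ => ((bet_sq_int n a).const_mul _).const_mul _
      _ = ∑ a : Fin (n + 1), ‖c a‖ ^ 2 * (q n * ∫ x, bet n a x ^ 2) := by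
          rw [integral_finsetSum]
          · refine Finset.sum_congr rfl fun a _ => ?_
            rw [integral_const_mul, integral_const_mul]
          · exact fun a _ => ((bet_sq_int n a).const_mul _).const_mul _
      _ ≤ ∑ a : Fin (n + 1), ‖c a‖ ^ 2 := by
          refine Finset.sum_le_sum fun a _ => ?_
          have h7 : q n * ∫ x, bet n a x ^ 2 ≤ 1 := by
            calc q n * ∫ x, bet n a x ^ 2 ≤ q n * (1 / q n) := by
                  have := bet_sq_le n a
                  gcongr
              _ = 1 := by field_simp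
          calc ‖c a‖ ^ 2 * (q n * ∫ x, bet n a x ^ 2) ≤ ‖c a‖ ^ 2 * 1 := by gcongr
            _ = _ := mul_one _
  · intro n x
    simp only
    have hq := q_pos n
    have h1 : ∀ a ∈ (Finset.univ : Finset (Fin (n + 1))), ‖psi n a x‖ ^ 2 ≤ 1 / q n := by
      intro a _
      rw [psi_eq, norm_mul, Complex.norm_real, Real.norm_eq_abs, mul_pow, sq_abs,
        Real.sq_sqrt hq.le]
      calc q n * ‖E n a x‖ ^ 2 ≤ q n * (1 / q n) ^ 2 := by
            have := E_norm n a x
            gcongr
        _ = _ := by field_simp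
    refine (Finset.sum_le_sum h1).trans (le_of_eq ?_)
    rw [Finset.sum_const, Finset.card_univ, Fintype.card_fin, nsmul_eq_mul]
    have : ((n + 1 : ℕ) : ℝ) = q n := by unfold q; push_cast; ring
    rw [this]
    field_simp
  · intro x y
    simp only
    set C : ℝ := (2 * Real.pi * |x| + 1 / 2) + (2 * Real.pi * |y| + 1 / 2) +
      2 * Real.pi * |x - y| with hC
    have hmain : ∀ n : ℕ, ‖∑ a : Fin (n + 1), psi n a x * conj (psi n a y) -
        ((S (x - y) : ℝ) : ℂ)‖ ≤ C / q n := by
      intro n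
      have hq := q_pos n
      have h1 : ∑ a : Fin (n + 1), psi n a x * conj (psi n a y) =
          ∑ a ∈ Finset.range (n + 1), (q n : ℂ) * (E n a x * conj (E n a y)) := by
        rw [← Fin.sum_univ_eq_sum_range (fun a => (q n : ℂ) * (E n a x * conj (E n a y)))]
        refine Finset.sum_congr rfl fun a _ => ?_
        rw [psi_eq, psi_eq, map_mul, Complex.conj_ofReal]
        have : (Real.sqrt (q n) : ℂ) * (Real.sqrt (q n) : ℂ) = (q n : ℂ) := by
          rw [← Complex.ofReal_mul, Real.mul_self_sqrt hq.le]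
        rw [← this]
        ring
      rw [h1]
      have h2 : ∑ a ∈ Finset.range (n + 1), (q n : ℂ) * (E n a x * conj (E n a y)) -
          ((S (x - y) : ℝ) : ℂ) =
          (∑ a ∈ Finset.range (n + 1), ((q n : ℂ) * (E n a x * conj (E n a y)) -
            ((1 / q n : ℝ) : ℂ) * e (mid n a * (x - y)))) -
          (((S (x - y) : ℝ) : ℂ) - ∑ a ∈ Finset.range (n + 1),
            ((1 / q n : ℝ) : ℂ) * e (mid n a * (x - y))) := by
        rw [Finset.sum_sub_distrib]
        ring
      rw [h2]
      refine (norm_sub_le _ _).trans ?_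
      have h3 := riemann n (x - y)
      have h4 : ‖∑ a ∈ Finset.range (n + 1), ((q n : ℂ) * (E n a x * conj (E n a y)) -
            ((1 / q n : ℝ) : ℂ) * e (mid n a * (x - y)))‖ ≤
          ((2 * Real.pi * |x| + 1 / 2) + (2 * Real.pi * |y| + 1 / 2)) / q n := by
        refine (norm_sum_le _ _).trans ?_
        have h5 : ∀ a ∈ Finset.range (n + 1), ‖(q n : ℂ) * (E n a x * conj (E n a y)) -
            ((1 / q n : ℝ) : ℂ) * e (mid n a * (x - y))‖ ≤
            ((2 * Real.pi * |x| + 1 / 2) + (2 * Real.pi * |y| + 1 / 2)) / q n ^ 2 := by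
          intro a _
          set u := ((1 / q n : ℝ) : ℂ) * e (mid n a * x) with hu
          set v := ((1 / q n : ℝ) : ℂ) * e (mid n a * y) with hv
          have e1 : ((1 / q n : ℝ) : ℂ) * e (mid n a * (x - y)) = (q n : ℂ) * (u * conj v) := by
            rw [hu, hv, map_mul, Complex.conj_ofReal, mul_sub, ← e_conj]
            have : (q n : ℂ) ≠ 0 := by exact_mod_cast hq.ne'
            push_cast
            field_simp
          rw [e1]
          have e2 : (q n : ℂ) * (E n a x * conj (E n a y)) - (q n : ℂ) * (u * conj v) =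
              (q n : ℂ) * ((E n a x - u) * conj (E n a y) + u * conj (E n a y - v)) := by
            rw [map_sub]
            ring
          rw [e2, norm_mul, Complex.norm_real, Real.norm_of_nonneg hq.le]
          have n1 := E_approx n a x
          have n2 := E_approx n a y
          have n3 := E_norm n a y
          have n4 : ‖u‖ = 1 / q n := by
            rw [hu, norm_mul, e_norm, mul_one, Complex.norm_real, Real.norm_of_nonneg]
            positivity
          have hp := Real.pi_pos
          calc q n * ‖(E n a x - u) * conj (E n a y) + u * conj (E n a y - v)‖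
              ≤ q n * (‖E n a x - u‖ * ‖E n a y‖ + ‖u‖ * ‖E n a y - v‖) := by
                gcongr
                refine (norm_add_le _ _).trans (le_of_eq ?_)
                rw [norm_mul, norm_mul, Complex.norm_conj, Complex.norm_conj]
            _ ≤ q n * ((2 * Real.pi * |x| + 1 / 2) / q n ^ 2 * (1 / q n) +
                (1 / q n) * ((2 * Real.pi * |y| + 1 / 2) / q n ^ 2)) := by
                rw [n4]
                gcongr
            _ = _ := by field_simp
        refine (Finset.sum_le_sum h5).trans (le_of_eq ?_)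
        rw [Finset.sum_const, Finset.card_range, nsmul_eq_mul]
        have : ((n + 1 : ℕ) : ℝ) = q n := by unfold q; push_cast; ring
        rw [this]
        field_simp
      calc _ ≤ ((2 * Real.pi * |x| + 1 / 2) + (2 * Real.pi * |y| + 1 / 2)) / q n +
            2 * Real.pi * |x - y| / q n := add_le_add h4 h3
        _ = C / q n := by rw [hC]; ring
    rw [tendsto_iff_norm_sub_tendsto_zero]
    refine squeeze_zero (fun _ => norm_nonneg _) hmain ?_
    have : Tendsto (fun n : ℕ => C / ((n : ℝ) + 1)) atTop (𝓝 0) := by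
      have h := tendsto_one_div_add_atTop_nhds_zero_nat (𝕜 := ℝ)
      have := h.const_mul C
      simpa [div_eq_mul_inv] using this
    exact this

end R974.SP.Ker
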